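import Mathlib

set_option autoImplicit false

namespace Pool.Agent.Results.MP_4ebb14_gt.Separable

open Set Topology Cardinal

universe u

/-- `X` satisfies the countable chain condition (its Suslin number is countable): every family of
pairwise disjoint nonempty open subsets of `X` is countable. -/
def CCC (X : Type u) [TopologicalSpace X] : Prop :=
  ∀ 𝒰 : Set (Set X), (∀ U ∈ 𝒰, IsOpen U ∧ U.Nonempty) → 𝒰.PairwiseDisjoint id → 𝒰.Countable

/-- a family of sets is centered if each finite subfamily has nonempty intersection -/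
def Centered {X : Type u} (η : Set (Set X)) : Prop :=
  ∀ F : Finset (Set X), (F : Set (Set X)) ⊆ η → (⋂₀ (F : Set (Set X))).Nonempty

/-- the statement (TAM): in every Hausdorff ccc space, every uncountable family of nonempty open
sets has an uncountable centered subfamily -/
def TAM : Prop := ∀ (X : Type u) [TopologicalSpace X] [T2Space X], CCC X →
  ∀ ξ : Set (Set X), (∀ U ∈ ξ, IsOpen U ∧ U.Nonempty) → ¬ ξ.Countable →
    ∃ η ⊆ ξ, ¬ η.Countable ∧ Centered η

lemma TAM.indexed (h : TAM.{u}) {X : Type u} [TopologicalSpace X] [T2Space X] (hX : CCC X)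
    {I : Type*} {J : Set I} (hJ : ¬ J.Countable) (O : I → Set X)
    (hO : ∀ i ∈ J, IsOpen (O i) ∧ (O i).Nonempty) :
    ∃ K ⊆ J, ¬ K.Countable ∧ ∀ F : Finset I, ↑F ⊆ K → (⋂ i ∈ F, O i).Nonempty := by
  by_cases hc : (O '' J).Countable
  · obtain ⟨U, hU, hfib⟩ : ∃ U ∈ O '' J, ¬ (J ∩ O ⁻¹' {U}).Countable := by
      by_contra hcon
      push Not at hcon
      apply hJ
      have : J ⊆ ⋃ U ∈ O '' J, (J ∩ O ⁻¹' {U}) := by
        intro i hi
        simp only [mem_iUnion]
        exact ⟨O i, mem_image_of_mem _ hi, hi, rfl⟩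
      exact (hc.biUnion hcon).mono this
    refine ⟨_, inter_subset_left, hfib, ?_⟩
    intro F hF
    obtain ⟨i, hi, rfl⟩ := hU
    obtain ⟨x, hx⟩ := (hO i hi).2
    refine ⟨x, ?_⟩
    simp only [mem_iInter]
    intro j hj
    have := (hF hj).2
    rw [mem_preimage, mem_singleton_iff] at this
    rw [this]; exact hx
  · obtain ⟨η, hη, hηc, hcen⟩ := h X hX (O '' J) (by rintro _ ⟨i, hi, rfl⟩; exact hO i hi) hc
    have hex : ∀ U ∈ η, ∃ i ∈ J, O i = U := fun U hU => hη hU
    have hJne : J.Nonempty := by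
      by_contra hcon
      rw [not_nonempty_iff_eq_empty] at hcon
      exact hJ (by rw [hcon]; exact countable_empty)
    have : Nonempty I := ⟨hJne.some⟩
    choose! s hsJ hs using hex
    refine ⟨s '' η, ?_, ?_, ?_⟩
    · rintro _ ⟨U, hU, rfl⟩; exact hsJ U hU
    · intro hcount
      apply hηc
      have hinj : InjOn s η := fun U hU V hV huv => by rw [← hs U hU, ← hs V hV, huv]
      exact (countable_of_injective_of_countable_image hinj hcount)
    · intro F hF
      classical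
      obtain ⟨x, hx⟩ := hcen (F.image O) (by
        intro U hU
        simp only [Finset.coe_image, mem_image, Finset.mem_coe] at hU 
        obtain ⟨i, hi, rfl⟩ := hU
        obtain ⟨V, hV, rfl⟩ := hF hi
        rw [hs V hV]; exact hV)
      refine ⟨x, ?_⟩
      simp only [mem_iInter]
      intro i hi
      exact hx (O i) (by simp; exact ⟨i, hi, rfl⟩)

section Poset

variable {W : Type u} (𝔽 : Set (Finset W))

def IsGood (A : Set W) : Prop := ∀ F : Finset W, (F : Set W) ⊆ A → F ∈ 𝔽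

def MaxGood := {A : Set W // IsGood 𝔽 A ∧ ∀ B, IsGood 𝔽 B → A ⊆ B → B = A}

instance MaxGood.top : TopologicalSpace (MaxGood 𝔽) where
  IsOpen O := ∀ A ∈ O, ∃ F : Finset W, (F : Set W) ⊆ A.1 ∧
    ∀ B : MaxGood 𝔽, (F : Set W) ⊆ B.1 → B ∈ O
  isOpen_univ := fun A _ => ⟨∅, by simp, by simp⟩
  isOpen_inter := by
    classical
    intro s t hs ht A hA
    obtain ⟨F, hF, hF'⟩ := hs A hA.1
    obtain ⟨G, hG, hG'⟩ := ht A hA.2
    refine ⟨F ∪ G, ?_, ?_⟩
    · simpa using ⟨hF, hG⟩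
    · intro B hB
      rw [Finset.coe_union, union_subset_iff] at hB
      exact ⟨hF' B hB.1, hG' B hB.2⟩
  isOpen_sUnion := by
    intro S hS A hA
    obtain ⟨O, hO, hAO⟩ := hA
    obtain ⟨F, hF, hF'⟩ := hS O hO A hAO
    exact ⟨F, hF, fun B hB => ⟨O, hO, hF' B hB⟩⟩

variable {𝔽}

lemma isOpen_cyl (F : Finset W) : IsOpen {A : MaxGood 𝔽 | (F : Set W) ⊆ A.1} :=
  fun _ hA => ⟨F, hA, fun _ hB => hB⟩

lemma extend {A : Set W} (hA : IsGood 𝔽 A) : ∃ B : MaxGood 𝔽, A ⊆ B.1 := by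
  obtain ⟨M, hAM, hM⟩ := zorn_subset_nonempty {B : Set W | IsGood 𝔽 B} (by
    intro c hc hchain hne
    refine ⟨⋃₀ c, ?_, fun s hs => subset_sUnion_of_mem hs⟩
    intro F hF
    rw [sUnion_eq_biUnion] at hF
    obtain ⟨B, hB, hFB⟩ := DirectedOn.exists_mem_subset_of_finset_subset_biUnion
      (f := fun i : Set W => i) hne hchain.directedOn hF
    exact hc hB F hFB) A hA
  refine ⟨⟨M, hM.1, ?_⟩, hAM⟩
  intro B hB hMB
  exact (hM.eq_of_subset hB hMB).symm

lemma MaxGood.t2 (hdown : ∀ F ∈ 𝔽, ∀ G : Finset W, G ⊆ F → G ∈ 𝔽) : T2Space (MaxGood 𝔽) := by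
  classical
  refine ⟨?_⟩
  intro A B hAB
  have : ∃ ξ ∈ A.1, ξ ∉ B.1 := by
    by_contra hcon
    push Not at hcon
    apply hAB
    apply Subtype.ext
    exact (A.2.2 B.1 B.2.1 hcon).symm
  obtain ⟨ξ, hξA, hξB⟩ := this
  have : ∃ F : Finset W, (F : Set W) ⊆ B.1 ∧ insert ξ F ∉ 𝔽 := by
    by_contra hcon
    push Not at hcon
    apply hξB
    have hgood : IsGood 𝔽 (insert ξ B.1) := by
      intro F hF
      have h1 := hcon (F.erase ξ) (by
        intro η hη
        simp only [Finset.coe_erase, mem_sdiff, Finset.mem_coe, mem_singleton_iff] at hη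
        rcases hF hη.1 with h | h
        · exact absurd h hη.2
        · exact h)
      exact hdown _ h1 _ (Finset.subset_insert_iff.2 (Finset.Subset.refl _))
    have := B.2.2 _ hgood (subset_insert _ _)
    rw [← this]
    exact mem_insert _ _
  obtain ⟨F, hFB, hF⟩ := this
  refine ⟨{C | (({ξ} : Finset W) : Set W) ⊆ C.1}, {C | (F : Set W) ⊆ C.1}, isOpen_cyl _,
    isOpen_cyl _, ?_, hFB, ?_⟩
  · simpa using hξA
  · rw [Set.disjoint_left]
    intro C hC1 hC2
    apply hF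
    apply C.2.1
    rw [Finset.coe_insert]
    apply insert_subset _ hC2
    simpa using hC1

lemma TAM.poset (h : TAM.{u}) [Uncountable W]
    (hdown : ∀ F ∈ 𝔽, ∀ G : Finset W, G ⊆ F → G ∈ 𝔽) (hsing : ∀ w, {w} ∈ 𝔽)
    (hccc : ∀ 𝒥 : Set (Finset W), 𝒥 ⊆ 𝔽 → ¬ 𝒥.Countable →
      ∃ F ∈ 𝒥, ∃ G ∈ 𝒥, F ≠ G ∧ ∃ H ∈ 𝔽, F ⊆ H ∧ G ⊆ H) :
    ∃ A : Set W, ¬ A.Countable ∧ IsGood 𝔽 A := by
  classical
  have hgood : ∀ F ∈ 𝔽, IsGood 𝔽 (F : Set W) := fun F hF G hG => hdown F hF G (by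
    intro x hx; exact hG hx)
  have hext : ∀ F ∈ 𝔽, ∃ B : MaxGood 𝔽, (F : Set W) ⊆ B.1 := fun F hF => extend (hgood F hF)
  have : T2Space (MaxGood 𝔽) := MaxGood.t2 hdown
  have hC : CCC (MaxGood 𝔽) := by
    intro 𝒰 hU hdisj
    by_contra hunc
    have : ∀ U ∈ 𝒰, ∃ F ∈ 𝔽, {A : MaxGood 𝔽 | (F : Set W) ⊆ A.1} ⊆ U := by
      intro U hUU
      obtain ⟨ho, A, hA⟩ := hU U hUU
      obtain ⟨F, hF, hF'⟩ := ho A hA
      exact ⟨F, A.2.1 F hF, fun B hB => hF' B hB⟩
    choose! f hf1 hf2 using this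
    have hinj : InjOn f 𝒰 := by
      intro U hUU V hVV huv
      by_contra hne
      obtain ⟨B, hB⟩ := hext (f U) (hf1 U hUU)
      have h1 := hf2 U hUU hB
      have h2 : B ∈ V := hf2 V hVV (by rw [← huv]; exact hB)
      exact (Set.disjoint_left.1 (hdisj hUU hVV hne)) h1 h2
    obtain ⟨F, hF, G, hG, hFG, H, hH, hFH, hGH⟩ := hccc (f '' 𝒰) (by
      rintro _ ⟨U, hUU, rfl⟩; exact hf1 U hUU)
      (fun hc => hunc (countable_of_injective_of_countable_image hinj hc))
    obtain ⟨U, hUU, rfl⟩ := hF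
    obtain ⟨V, hVV, rfl⟩ := hG
    have hne : U ≠ V := fun h => hFG (by rw [h])
    obtain ⟨B, hB⟩ := hext H hH
    have h1 : B ∈ U := hf2 U hUU (fun x hx => hB (hFH hx))
    have h2 : B ∈ V := hf2 V hVV (fun x hx => hB (hGH hx))
    exact (Set.disjoint_left.1 (hdisj hUU hVV hne)) h1 h2
  obtain ⟨A, -, hAc, hA⟩ := h.indexed hC (J := (univ : Set W))
    (fun hc => not_countable (α := W) (countable_univ_iff.1 hc))
    (fun w => {A : MaxGood 𝔽 | (({w} : Finset W) : Set W) ⊆ A.1})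
    (fun w _ => ⟨isOpen_cyl _, hext _ (hsing w)⟩)
  refine ⟨A, hAc, ?_⟩
  intro F hF
  obtain ⟨B, hB⟩ := hA F hF
  simp only [mem_iInter] at hB
  apply B.2.1
  intro x hx
  have := hB x hx
  simpa using this

end Poset

section Comb

lemma pigeon {I C : Type*} [Countable C] {J : Set I} (hJ : ¬ J.Countable) (f : I → C) :
    ∃ c, ¬ {i ∈ J | f i = c}.Countable := by
  by_contra hcon
  push Not at hcon
  apply hJ
  have : J ⊆ ⋃ c, {i ∈ J | f i = c} := by
    intro i hi
    rw [mem_iUnion]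
    exact ⟨f i, hi, rfl⟩
  exact (countable_iUnion hcon).mono this

lemma delta_system {α I : Type*} [DecidableEq α] (n : ℕ) : ∀ (J : Set I) (F : I → Finset α),
    ¬ J.Countable → (∀ i ∈ J, (F i).card = n) →
    ∃ K ⊆ J, ¬ K.Countable ∧ ∃ R : Finset α, ∀ i ∈ K, ∀ j ∈ K, i ≠ j → F i ∩ F j = R := by
  induction n with
  | zero =>
    intro J F hJ hF
    refine ⟨J, subset_rfl, hJ, ∅, ?_⟩
    intro i hi j hj _
    have := hF i hi
    rw [Finset.card_eq_zero] at this
    rw [this]; simp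
  | succ n ih =>
    intro J F hJ hF
    by_cases hex : ∃ a, ¬ {i ∈ J | a ∈ F i}.Countable
    · obtain ⟨a, ha⟩ := hex
      obtain ⟨K, hKJ, hK, R, hR⟩ := ih {i ∈ J | a ∈ F i} (fun i => (F i).erase a) ha (by
        intro i hi
        rw [Finset.card_erase_of_mem hi.2, hF i hi.1]; rfl)
      refine ⟨K, fun i hi => (hKJ hi).1, hK, insert a R, ?_⟩
      intro i hi j hj hij
      rw [← hR i hi j hj hij]
      have h1 := (hKJ hi).2
      have h2 := (hKJ hj).2
      ext x
      simp only [Finset.mem_inter, Finset.mem_insert, Finset.mem_erase]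
      by_cases hx : x = a
      · subst hx; simp [h1, h2]
      · simp [hx]
    · push Not at hex
      obtain ⟨K, hK⟩ := zorn_subset {K : Set I | K ⊆ J ∧ K.PairwiseDisjoint F} (by
        intro c hc hchain
        refine ⟨⋃₀ c, ⟨sUnion_subset fun s hs => (hc hs).1, ?_⟩, fun s hs => subset_sUnion_of_mem hs⟩
        rw [pairwiseDisjoint_sUnion hchain.directedOn]
        exact fun s hs => (hc hs).2)
      refine ⟨K, hK.1.1, ?_, ∅, ?_⟩
      · intro hKc
        have hN : (K ∪ ⋃ k ∈ K, ⋃ a ∈ F k, {i ∈ J | a ∈ F i}).Countable := by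
          refine hKc.union (hKc.biUnion fun k _ => ?_)
          exact (F k).countable_toSet.biUnion fun a _ => hex a
        obtain ⟨i, hiJ, hi⟩ : ∃ i ∈ J, i ∉ (K ∪ ⋃ k ∈ K, ⋃ a ∈ F k, {i ∈ J | a ∈ F i}) := by
          by_contra hcon
          push Not at hcon
          exact hJ (hN.mono hcon)
        rw [mem_union, not_or] at hi
        have hins : insert i K ∈ {K : Set I | K ⊆ J ∧ K.PairwiseDisjoint F} := by
          refine ⟨insert_subset hiJ hK.1.1, ?_⟩
          rw [pairwiseDisjoint_insert_of_notMem hi.1]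
          refine ⟨hK.1.2, ?_⟩
          intro k hk
          rw [Finset.disjoint_left]
          intro a hai hak
          apply hi.2
          simp only [mem_iUnion]
          exact ⟨k, hk, a, hak, hiJ, hai⟩
        have := hK.eq_of_subset hins (subset_insert _ _)
        exact hi.1 (by rw [this]; exact mem_insert _ _)
      · intro i hi j hj hij
        exact Finset.disjoint_iff_inter_eq_empty.1 (hK.1.2 hi hj hij)

end Comb

section StepA

variable {Y W : Type u} [TopologicalSpace Y] [LinearOrder W]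

/-- the first place where two of the reals differ -/
noncomputable def D {W : Type u} (x : W → ℕ → Bool) (ξ ζ : W) : ℕ :=
  PiNat.firstDiff (E := fun _ => Bool) (x ξ) (x ζ)

lemma D_ne {W : Type u} {x : W → ℕ → Bool} {ξ ζ : W} (h : x ξ ≠ x ζ) :
    x ξ (D x ξ ζ) ≠ x ζ (D x ξ ζ) :=
  PiNat.apply_firstDiff_ne (E := fun _ => Bool) h

lemma D_eq {W : Type u} {x : W → ℕ → Bool} {ξ ζ : W} {m : ℕ} (h : m < D x ξ ζ) :
    x ξ m = x ζ m :=
  PiNat.apply_eq_of_lt_firstDiff (E := fun _ => Bool) h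

/-- the open set attached to a finite set of indices -/
def WF (V : W → Set Y) (b : ℕ → ℕ → Set Y) (x : W → ℕ → Bool) (e : W → W → ℕ)
    (F : Finset W) : Set Y :=
  {y | (∀ ξ ∈ F, y ∈ V ξ) ∧
    ∀ ξ ∈ F, ∀ ζ ∈ F, ξ < ζ → y ∈ b (D x ξ ζ) (e ζ ξ)}

lemma isOpen_WF {V : W → Set Y} (hV : ∀ w, IsOpen (V w)) {b : ℕ → ℕ → Set Y}
    (hbo : ∀ m k, IsOpen (b m k)) (x : W → ℕ → Bool) (e : W → W → ℕ) (F : Finset W) :
    IsOpen (WF V b x e F) := by
  have : WF V b x e F = (⋂ ξ ∈ F, V ξ) ∩ ⋂ ξ ∈ F, ⋂ ζ ∈ F, ⋂ (_ : ξ < ζ),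
      b (D x ξ ζ) (e ζ ξ) := by
    ext y; simp [WF]
  rw [this]
  refine (isOpen_biInter_finset fun ξ _ => hV ξ).inter
    (isOpen_biInter_finset fun ξ _ => isOpen_biInter_finset fun ζ _ => ?_)
  exact isOpen_iInter_of_finite fun _ => hbo _ _

lemma multi {b : ℕ → ℕ → Set Y} (hbo : ∀ m k, IsOpen (b m k)) (hbm : ∀ m, Monotone (b m))
    (hbd : ∀ m, ∀ G : Set Y, IsOpen G → G.Nonempty → ∃ k, (G ∩ b m k).Nonempty) (n : ℕ) :
    ∀ G : Set Y, IsOpen G → G.Nonempty → ∃ K, (G ∩ ⋂ m ∈ Finset.range n, b m K).Nonempty := by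
  induction n with
  | zero =>
    intro G _ hG
    exact ⟨0, by simpa using hG⟩
  | succ n ih =>
    intro G hGo hG
    obtain ⟨K, hK⟩ := ih G hGo hG
    obtain ⟨k, y, hy⟩ := hbd n (G ∩ ⋂ m ∈ Finset.range n, b m K)
      (hGo.inter (isOpen_biInter_finset fun m _ => hbo m K)) hK
    refine ⟨max K k, y, hy.1.1, ?_⟩
    have h1 := hy.1.2
    simp only [mem_iInter, Finset.mem_range] at h1 ⊢
    intro m hm
    rcases Nat.lt_succ_iff_lt_or_eq.1 hm with h | h
    · exact hbm m (le_max_left _ _) (h1 m h)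
    · subst h; exact hbm m (le_max_right _ _) hy.2

lemma ccc_F (h : TAM.{u}) [T2Space Y] (hY : CCC Y) (hW1 : #W = ℵ₁)
    (hW : ∀ w : W, (Iio w).Countable)
    {V : W → Set Y} (hV : ∀ w, IsOpen (V w)) {b : ℕ → ℕ → Set Y}
    (hbo : ∀ m k, IsOpen (b m k)) (hbm : ∀ m, Monotone (b m))
    (hbd : ∀ m, ∀ G : Set Y, IsOpen G → G.Nonempty → ∃ k, (G ∩ b m k).Nonempty)
    {x : W → ℕ → Bool} (hx : Function.Injective x) {e : W → W → ℕ}
    (he : ∀ ζ, InjOn (e ζ) (Iio ζ))
    (𝒥 : Set (Finset W)) (h𝒥 : ∀ F ∈ 𝒥, (WF V b x e F).Nonempty) (hunc : ¬ 𝒥.Countable) :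
    ∃ F ∈ 𝒥, ∃ G ∈ 𝒥, F ≠ G ∧ ∃ H, (WF V b x e H).Nonempty ∧ F ⊆ H ∧ G ⊆ H := by
  classical
  obtain ⟨n0, hn0⟩ := pigeon hunc Finset.card
  obtain ⟨K, hKJ, hK, R, hR⟩ := delta_system n0 {F ∈ 𝒥 | F.card = n0} id hn0 (fun i hi => hi.2)
  simp only [id] at hR
  obtain ⟨K1, hK1K, hK1, hcen⟩ := h.indexed hY hK (WF V b x e)
    (fun F hF => ⟨isOpen_WF hV hbo x e F, h𝒥 F (hKJ hF).1⟩)
  set π : (n : ℕ) → Finset W → Finset (Fin n → Bool) :=
    fun n F => (F \ R).image (fun ξ (m : Fin n) => x ξ m) with hπ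
  have hnice : ¬ {F ∈ K1 | ∀ n, ¬ {G ∈ K1 | π n G = π n F}.Countable}.Countable := by
    intro hc
    apply hK1
    have hsub : K1 ⊆ {F ∈ K1 | ∀ n, ¬ {G ∈ K1 | π n G = π n F}.Countable} ∪
        ⋃ n, ⋃ p ∈ {p : Finset (Fin n → Bool) | {G ∈ K1 | π n G = p}.Countable},
          {G ∈ K1 | π n G = p} := by
      intro F hF
      by_cases hall : ∀ n, ¬ {G ∈ K1 | π n G = π n F}.Countable
      · exact Or.inl ⟨hF, hall⟩
      · push Not at hall
        obtain ⟨n, hn⟩ := hall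
        right
        simp only [mem_iUnion]
        exact ⟨n, π n F, hn, hF, rfl⟩
    refine (Set.Countable.union hc ?_).mono hsub
    refine countable_iUnion fun n => ?_
    have hcn : {p : Finset (Fin n → Bool) | {G ∈ K1 | π n G = p}.Countable}.Countable :=
      (Set.toFinite _).countable
    exact hcn.biUnion fun p hp => hp
  obtain ⟨F0, hF0, G0, hG0, hne⟩ : ∃ F0 ∈ {F ∈ K1 | ∀ n, ¬ {G ∈ K1 | π n G = π n F}.Countable},
      ∃ G0 ∈ {F ∈ K1 | ∀ n, ¬ {G ∈ K1 | π n G = π n F}.Countable}, F0 ≠ G0 := by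
    by_contra hcon
    push Not at hcon
    exact hnice (Set.Subsingleton.countable (fun F hF G hG => hcon F hF G hG))
  -- a level separating the two finite sets
  obtain ⟨n, hn⟩ : ∃ n : ℕ, ∀ ξ ∈ F0 \ R, ∀ ζ ∈ G0 \ R, ∃ m < n, x ξ m ≠ x ζ m := by
    refine ⟨((F0 \ R) ×ˢ (G0 \ R)).sup (fun p => D x p.1 p.2) + 1, ?_⟩
    intro ξ hξ ζ hζ
    have hξζ : ξ ≠ ζ := by
      rintro rfl
      rw [Finset.mem_sdiff] at hξ hζ
      apply hξ.2
      rw [← hR F0 (hK1K hF0.1) G0 (hK1K hG0.1) hne]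
      exact Finset.mem_inter.2 ⟨hξ.1, hζ.1⟩
    refine ⟨D x ξ ζ, ?_, D_ne (fun hh => hξζ (hx hh))⟩
    have hmem : (ξ, ζ) ∈ (F0 \ R) ×ˢ (G0 \ R) := Finset.mem_product.2 ⟨hξ, hζ⟩
    exact Nat.lt_succ_of_le (Finset.le_sup (f := fun p : W × W => D x p.1 p.2) hmem)
  set Is := {G ∈ K1 | π n G = π n F0} with hIs
  set It := {G ∈ K1 | π n G = π n G0} with hIt
  have hP : ∀ F ∈ Is, ∀ G ∈ It, ∀ ξ ∈ F \ R, ∀ ζ ∈ G \ R, ∃ m < n, x ξ m ≠ x ζ m := by
    intro F hF G hG ξ hξ ζ hζ
    have h1 : (fun m : Fin n => x ξ m) ∈ π n F0 := by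
      rw [← hF.2]; exact Finset.mem_image_of_mem _ hξ
    have h2 : (fun m : Fin n => x ζ m) ∈ π n G0 := by
      rw [← hG.2]; exact Finset.mem_image_of_mem _ hζ
    obtain ⟨ξ0, hξ0, h1⟩ := Finset.mem_image.1 h1
    obtain ⟨ζ0, hζ0, h2⟩ := Finset.mem_image.1 h2
    obtain ⟨m, hm, hmne⟩ := hn ξ0 hξ0 ζ0 hζ0
    refine ⟨m, hm, ?_⟩
    have h1' := congrFun h1 ⟨m, hm⟩
    have h2' := congrFun h2 ⟨m, hm⟩
    simp only at h1' h2'
    rwa [← h1', ← h2']
  have hFG : ∀ F ∈ Is, ∀ G ∈ It, F ≠ G := by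
    rintro F hF G hG rfl
    have hempty : F \ R = ∅ := by
      rw [Finset.eq_empty_iff_forall_notMem]
      intro ξ hξ
      obtain ⟨m, _, hm⟩ := hP F hF F hG ξ hξ ξ hξ
      exact hm rfl
    have h1 : F0 \ R = ∅ := by
      have := hF.2
      simp only [hπ, hempty, Finset.image_empty] at this
      exact Finset.image_eq_empty.1 this.symm
    have h2 : G0 \ R = ∅ := by
      have := hG.2
      simp only [hπ, hempty, Finset.image_empty] at this
      exact Finset.image_eq_empty.1 this.symm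
    rw [Finset.sdiff_eq_empty_iff_subset] at h1 h2
    have hRR := hR F0 (hK1K hF0.1) G0 (hK1K hG0.1) hne
    apply hne
    apply Finset.Subset.antisymm
    · exact h1.trans (by rw [← hRR]; exact Finset.inter_subset_right)
    · exact h2.trans (by rw [← hRR]; exact Finset.inter_subset_left)
  have hIsu : ¬ Is.Countable := hF0.2 n
  have hItu : ¬ It.Countable := hG0.2 n
  have hemb : ∀ S : Set (Finset W), ¬ S.Countable → Nonempty (W ↪ S) := by
    intro S hS
    rw [← Cardinal.le_aleph0_iff_set_countable, not_le, ← Order.succ_le_iff, Cardinal.succ_aleph0, ← hW1] at hS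
    exact hS
  obtain ⟨fs⟩ := hemb Is hIsu
  obtain ⟨gt⟩ := hemb It hItu
  have hKex : ∀ w, ∃ k, ((WF V b x e (fs w).1 ∩ WF V b x e (gt w).1) ∩
      ⋂ m ∈ Finset.range n, b m k).Nonempty := by
    intro w
    apply multi hbo hbm hbd n
    · exact (isOpen_WF hV hbo x e _).inter (isOpen_WF hV hbo x e _)
    · obtain ⟨y, hy⟩ := hcen {(fs w).1, (gt w).1} (by
        intro F hF
        simp only [Finset.coe_insert, Finset.coe_singleton, mem_insert_iff,
          mem_singleton_iff] at hF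
        rcases hF with rfl | rfl
        · exact (fs w).2.1
        · exact (gt w).2.1)
      simp only [mem_iInter] at hy
      exact ⟨y, hy _ (by simp), hy _ (by simp)⟩
  choose kf hkf using hKex
  have hWu : ¬ (univ : Set W).Countable := by
    rw [← Cardinal.le_aleph0_iff_set_countable, mk_univ, hW1, not_le]
    exact Cardinal.aleph0_lt_aleph_one
  obtain ⟨k, hk⟩ := pigeon hWu kf
  obtain ⟨W2, hW2, hW2u, hcen2⟩ := h.indexed hY hk
    (fun w => (WF V b x e (fs w).1 ∩ WF V b x e (gt w).1) ∩ ⋂ m ∈ Finset.range n, b m k) (by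
      rintro w ⟨_, hw⟩
      refine ⟨((isOpen_WF hV hbo x e _).inter (isOpen_WF hV hbo x e _)).inter
        (isOpen_biInter_finset fun m _ => hbo m k), ?_⟩
      rw [← hw]; exact hkf w)
  have hW2i : W2.Infinite := fun hfin => hW2u hfin.countable
  let ws : ℕ → W := fun i => (hW2i.natEmbedding W2 i : W)
  have hws : Function.Injective ws := fun i j hij =>
    (hW2i.natEmbedding W2).injective (Subtype.ext hij)
  have hwsmem : ∀ i, ws i ∈ W2 := fun i => (hW2i.natEmbedding W2 i).2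
  -- countable set below
  have hN : (⋃ i : ℕ, ⋃ ξ ∈ (fs (ws i)).1 \ R, Iic ξ).Countable := by
    refine countable_iUnion fun i => (Finset.countable_toSet _).biUnion fun ξ _ => ?_
    rw [← Iio_insert]
    exact (hW ξ).insert _
  obtain ⟨w', hw', hw'N⟩ : ∃ w' ∈ W2, ∀ ζ ∈ (gt w').1 \ R,
      ζ ∉ (⋃ i : ℕ, ⋃ ξ ∈ (fs (ws i)).1 \ R, Iic ξ) := by
    by_contra hcon
    push Not at hcon
    choose! z hz1 hz2 using hcon
    apply hW2u
    have hinj : InjOn z W2 := by
      intro w hw v hv hwv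
      by_contra hne'
      have h1 := hz1 w hw
      have h2 := hz1 v hv
      rw [← hwv] at h2
      rw [Finset.mem_sdiff] at h1 h2
      apply h1.2
      rw [← hR (gt w).1 (hK1K (gt w).2.1) (gt v).1 (hK1K (gt v).2.1)
        (fun hh => hne' (gt.injective (Subtype.ext hh)))]
      exact Finset.mem_inter.2 ⟨h1.1, h2.1⟩
    refine countable_of_injective_of_countable_image hinj (hN.mono ?_)
    rintro _ ⟨w, hw, rfl⟩
    exact hz2 w hw
  have hbad : (⋃ ζ ∈ (gt w').1 \ R, {ξ | ξ ∈ Iio ζ ∧ e ζ ξ < k}).Finite := by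
    refine Set.Finite.biUnion (Finset.finite_toSet _) fun ζ _ => ?_
    refine Set.Finite.of_finite_image (f := e ζ) ((finite_Iio k).subset ?_) ?_
    · rintro _ ⟨ξ, hξ, rfl⟩; exact hξ.2
    · exact (he ζ).mono fun ξ hξ => hξ.1
  obtain ⟨i, hi⟩ : ∃ i, ∀ ξ ∈ (fs (ws i)).1 \ R,
      ξ ∉ (⋃ ζ ∈ (gt w').1 \ R, {ξ | ξ ∈ Iio ζ ∧ e ζ ξ < k}) := by
    by_contra hcon
    push Not at hcon
    choose z hz1 hz2 using hcon
    refine Set.infinite_of_injective_forall_mem (f := z) ?_ hz2 hbad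
    intro i j hij
    by_contra hne'
    have h1 := hz1 i
    have h2 := hz1 j
    rw [← hij] at h2
    rw [Finset.mem_sdiff] at h1 h2
    apply h1.2
    rw [← hR (fs (ws i)).1 (hK1K (fs (ws i)).2.1) (fs (ws j)).1 (hK1K (fs (ws j)).2.1)
      (fun hh => hne' (hws (fs.injective (Subtype.ext hh))))]
    exact Finset.mem_inter.2 ⟨h1.1, h2.1⟩
  obtain ⟨y, hy⟩ := hcen2 {ws i, w'} (by
    intro v hv
    simp only [Finset.coe_insert, Finset.coe_singleton, mem_insert_iff,
      mem_singleton_iff] at hv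
    rcases hv with rfl | rfl
    · exact hwsmem i
    · exact hw')
  simp only [mem_iInter] at hy
  obtain ⟨⟨hyF, -⟩, hyb⟩ := hy (ws i) (by simp)
  obtain ⟨⟨-, hyG⟩, -⟩ := hy w' (by simp)
  simp only [mem_iInter, Finset.mem_range] at hyb
  refine ⟨(fs (ws i)).1, (hKJ (hK1K (fs (ws i)).2.1)).1, (gt w').1,
    (hKJ (hK1K (gt w').2.1)).1, hFG _ (fs (ws i)).2 _ (gt w').2,
    (fs (ws i)).1 ∪ (gt w').1, ⟨y, ?_, ?_⟩, Finset.subset_union_left, Finset.subset_union_right⟩
  · intro ξ hξ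
    rcases Finset.mem_union.1 hξ with h1 | h1
    · exact hyF.1 ξ h1
    · exact hyG.1 ξ h1
  · have hRsub1 : R ⊆ (fs (ws i)).1 := by
      rw [← hR (fs (ws i)).1 (hK1K (fs (ws i)).2.1) (gt w').1 (hK1K (gt w').2.1)
        (hFG _ (fs (ws i)).2 _ (gt w').2)]
      exact Finset.inter_subset_left
    have hRsub2 : R ⊆ (gt w').1 := by
      rw [← hR (fs (ws i)).1 (hK1K (fs (ws i)).2.1) (gt w').1 (hK1K (gt w').2.1)
        (hFG _ (fs (ws i)).2 _ (gt w').2)]
      exact Finset.inter_subset_right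
    intro ξ hξ ζ hζ hlt
    by_cases h1 : ξ ∈ (fs (ws i)).1 ∧ ζ ∈ (fs (ws i)).1
    · exact hyF.2 ξ h1.1 ζ h1.2 hlt
    by_cases h2 : ξ ∈ (gt w').1 ∧ ζ ∈ (gt w').1
    · exact hyG.2 ξ h2.1 ζ h2.2 hlt
    rcases Finset.mem_union.1 hξ with h3 | h3
    · rcases Finset.mem_union.1 hζ with h4 | h4
      · exact absurd ⟨h3, h4⟩ h1
      · have hξR : ξ ∈ (fs (ws i)).1 \ R := by
          rw [Finset.mem_sdiff]
          exact ⟨h3, fun hr => h2 ⟨hRsub2 hr, h4⟩⟩
        have hζR : ζ ∈ (gt w').1 \ R := by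
          rw [Finset.mem_sdiff]
          exact ⟨h4, fun hr => h1 ⟨h3, hRsub1 hr⟩⟩
        obtain ⟨m, hm, hmne⟩ := hP _ (fs (ws i)).2 _ (gt w').2 ξ hξR ζ hζR
        have hlt' : D x ξ ζ < n := by
          refine lt_of_le_of_lt ?_ hm
          by_contra hcon
          exact hmne (D_eq (not_le.1 hcon))
        have h5 := hi ξ hξR
        simp only [mem_iUnion, not_exists] at h5
        have h6 := h5 ζ hζR
        have h7 : k ≤ e ζ ξ := by
          by_contra hcon
          exact h6 ⟨hlt, not_le.1 hcon⟩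
        exact hbm _ h7 (hyb _ hlt')
    · rcases Finset.mem_union.1 hζ with h4 | h4
      · have hξR : ξ ∈ (gt w').1 \ R := by
          rw [Finset.mem_sdiff]
          exact ⟨h3, fun hr => h1 ⟨hRsub1 hr, h4⟩⟩
        have hζR : ζ ∈ (fs (ws i)).1 \ R := by
          rw [Finset.mem_sdiff]
          exact ⟨h4, fun hr => h2 ⟨h3, hRsub2 hr⟩⟩
        exfalso
        apply hw'N ξ hξR
        simp only [mem_iUnion]
        exact ⟨i, ζ, hζR, hlt.le⟩
      · exact absurd ⟨h3, h4⟩ h2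

end StepA

section StepA2

lemma exists_b {Y Z : Type u} [TopologicalSpace Y] [TopologicalSpace Z] [CompactSpace Z]
    [T2Space Z] {j : Y → Z} (hj : Continuous j) (hY : CCC Y) {O : Set Z} (hO : IsOpen O)
    (hjO : range j ⊆ O) :
    ∃ b : ℕ → Set Y, (∀ k, IsOpen (b k)) ∧ Monotone b ∧ (∀ k, closure (j '' b k) ⊆ O) ∧
      ∀ G : Set Y, IsOpen G → G.Nonempty → ∃ k, (G ∩ b k).Nonempty := by
  obtain ⟨𝒟, h𝒟⟩ := zorn_subset {𝒟 : Set (Set Y) |
    (∀ G ∈ 𝒟, IsOpen G ∧ G.Nonempty ∧ closure (j '' G) ⊆ O) ∧ 𝒟.PairwiseDisjoint id} (by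
    intro c hc hchain
    refine ⟨⋃₀ c, ⟨?_, ?_⟩, fun s hs => subset_sUnion_of_mem hs⟩
    · rintro G ⟨s, hs, hG⟩; exact (hc hs).1 G hG
    · rw [pairwiseDisjoint_sUnion hchain.directedOn]
      exact fun s hs => (hc hs).2)
  have hc : 𝒟.Countable :=
    hY 𝒟 (fun U hU => ⟨(h𝒟.1.1 U hU).1, (h𝒟.1.1 U hU).2.1⟩) h𝒟.1.2
  obtain ⟨f, hf⟩ := Set.countable_iff_exists_injOn.1 hc
  refine ⟨fun k => ⋃ D ∈ {D ∈ 𝒟 | f D ≤ k}, D, ?_, ?_, ?_, ?_⟩
  · intro k; exact isOpen_biUnion fun D hD => (h𝒟.1.1 D hD.1).1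
  · intro k l hkl; exact biUnion_subset_biUnion_left fun D hD => ⟨hD.1, hD.2.trans hkl⟩
  · intro k
    have hfin : {D ∈ 𝒟 | f D ≤ k}.Finite :=
      Set.Finite.of_finite_image (f := f)
        ((finite_Iic k).subset (by rintro _ ⟨D, hD, rfl⟩; exact hD.2)) (hf.mono fun D hD => hD.1)
    rw [image_iUnion₂, hfin.closure_biUnion]
    exact iUnion₂_subset fun D hD => (h𝒟.1.1 D hD.1).2.2
  · intro G hG hGne
    obtain ⟨y, hy⟩ := hGne
    obtain ⟨N, hN, hNc, hNO⟩ :=
      exists_mem_nhds_isClosed_subset (hO.mem_nhds (hjO (mem_range_self y)))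
    set G' := G ∩ j ⁻¹' (interior N) with hG'
    have hG'o : IsOpen G' := hG.inter (isOpen_interior.preimage hj)
    have hyG' : y ∈ G' := ⟨hy, mem_interior_iff_mem_nhds.2 hN⟩
    have hG'c : closure (j '' G') ⊆ O :=
      (closure_minimal (by rintro _ ⟨z, hz, rfl⟩; exact interior_subset hz.2) hNc).trans hNO
    by_contra hcon
    push Not at hcon
    have hdis : ∀ D ∈ 𝒟, Disjoint G' D := by
      intro D hD
      rw [Set.disjoint_left]
      intro z hz hzD
      have h1 := hcon (f D)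
      have h2 : z ∈ G ∩ ⋃ D' ∈ {D' ∈ 𝒟 | f D' ≤ f D}, D' :=
        ⟨hz.1, mem_biUnion (show D ∈ {D' ∈ 𝒟 | f D' ≤ f D} from ⟨hD, le_rfl⟩) hzD⟩
      rw [h1] at h2
      exact h2
    have hnot : G' ∉ 𝒟 := fun hmem => (Set.disjoint_left.1 (hdis G' hmem)) hyG' hyG'
    have hins : insert G' 𝒟 ∈ {𝒟 : Set (Set Y) |
        (∀ G ∈ 𝒟, IsOpen G ∧ G.Nonempty ∧ closure (j '' G) ⊆ O) ∧ 𝒟.PairwiseDisjoint id} := by
      refine ⟨?_, ?_⟩
      · intro D hD
        rcases hD with rfl | hD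
        · exact ⟨hG'o, ⟨y, hyG'⟩, hG'c⟩
        · exact h𝒟.1.1 D hD
      · rw [pairwiseDisjoint_insert_of_notMem hnot]
        exact ⟨h𝒟.1.2, fun D hD => hdis D hD⟩
    have := h𝒟.eq_of_subset hins (subset_insert _ _)
    exact hnot (by rw [this]; exact mem_insert _ _)

lemma exists_W : ∃ (W : Type u) (_ : LinearOrder W), WellFoundedLT W ∧ #W = ℵ₁ ∧
    ∀ w : W, (Iio w).Countable := by
  refine ⟨(ℵ₁ : Cardinal.{u}).ord.ToType, inferInstance, inferInstance, by simp, fun w => ?_⟩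
  have := mk_Iio_lt w (by simp)
  rw [mk_ord_toType, Cardinal.lt_aleph_one_iff] at this
  exact Cardinal.le_aleph0_iff_set_countable.1 this

theorem stepA (h : TAM.{u}) {Y Z W : Type u} [TopologicalSpace Y] [TopologicalSpace Z]
    [CompactSpace Z] [T2Space Z] [LinearOrder W]
    {j : Y → Z} (hj : IsEmbedding j) (hY : CCC Y) {O : ℕ → Set Z} (hO : ∀ m, IsOpen (O m))
    (hOa : Antitone O) (hjO : ∀ m, range j ⊆ O m)
    (hr : closure (range j) ∩ ⋂ m, O m ⊆ range j)
    (hW1 : #W = ℵ₁) (hW : ∀ w : W, (Iio w).Countable)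
    (U : W → Set Y) (hU : ∀ w, IsOpen (U w)) (hUne : ∀ w, (U w).Nonempty)
    (hUa : Antitone U) : (⋂ w, U w).Nonempty := by
  classical
  have : T2Space Y := hj.t2Space
  have : RegularSpace Y := hj.toIsInducing.regularSpace
  have hWunc : ¬ (univ : Set W).Countable := by
    rw [← Cardinal.le_aleph0_iff_set_countable, mk_univ, hW1, not_le]
    exact Cardinal.aleph0_lt_aleph_one
  have : Uncountable W := by
    rw [← not_countable_iff]
    intro hc
    exact hWunc (countable_univ_iff.2 hc)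
  -- reals
  obtain ⟨x, hx⟩ : ∃ x : W → ℕ → Bool, Function.Injective x := by
    have : Nonempty (W ↪ (ℕ → Bool)) := by
      rw [← Cardinal.lift_mk_le', hW1]
      simp only [mk_pi, mk_bool, prod_const, mk_nat, lift_ofNat, lift_aleph0]
      simpa using aleph_one_le_continuum
    obtain ⟨f⟩ := this
    exact ⟨f, f.injective⟩
  -- the functions e
  have hex : ∀ ζ : W, ∃ f : W → ℕ, InjOn f (Iio ζ) := fun ζ =>
    Set.countable_iff_exists_injOn.1 (hW ζ)
  choose e he using hex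
  -- the sets V
  have hVex : ∀ w, ∃ V : Set Y, IsOpen V ∧ V.Nonempty ∧ closure V ⊆ U w := by
    intro w
    obtain ⟨y, hy⟩ := hUne w
    obtain ⟨N, hN, hNc, hNU⟩ := exists_mem_nhds_isClosed_subset ((hU w).mem_nhds hy)
    exact ⟨interior N, isOpen_interior, ⟨y, mem_interior_iff_mem_nhds.2 hN⟩,
      (closure_minimal interior_subset hNc).trans hNU⟩
  choose V hVo hVne hVU using hVex
  have hbex : ∀ m, _ := fun m => exists_b hj.continuous hY (hO m) (hjO m)
  choose b hbo hbm hbc hbd using hbex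
  obtain ⟨A, hAu, hA⟩ := h.poset (W := W) (𝔽 := {F | (WF V b x e F).Nonempty}) (by
      intro F hF G hGF
      obtain ⟨y, hy⟩ := hF
      exact ⟨y, fun ξ hξ => hy.1 ξ (hGF hξ), fun ξ hξ ζ hζ => hy.2 ξ (hGF hξ) ζ (hGF hζ)⟩)
    (by
      intro w
      obtain ⟨y, hy⟩ := hVne w
      refine ⟨y, ?_, ?_⟩
      · intro ξ hξ; rw [Finset.mem_singleton.1 hξ]; exact hy
      · intro ξ hξ ζ hζ hlt
        rw [Finset.mem_singleton.1 hξ, Finset.mem_singleton.1 hζ] at hlt
        exact absurd hlt (lt_irrefl _))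
    (by
      intro 𝒥 h𝒥 hunc
      obtain ⟨F, hF, G, hG, hne, H, hH⟩ :=
        ccc_F h hY hW1 hW hVo hbo hbm hbd hx he 𝒥 h𝒥 hunc
      exact ⟨F, hF, G, hG, hne, H, hH⟩)
  have hAinf : A.Infinite := fun hfin => hAu hfin.countable
  -- a point in all closures
  have : Nonempty {F : Finset W // (F : Set W) ⊆ A} := ⟨⟨∅, by simp⟩⟩
  obtain ⟨z, hz⟩ := IsCompact.nonempty_iInter_of_directed_nonempty_isCompact_isClosed
    (fun F : {F : Finset W // (F : Set W) ⊆ A} => closure (j '' WF V b x e F.1))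
    (by
      intro F G
      refine ⟨⟨F.1 ∪ G.1, by rw [Finset.coe_union]; exact union_subset F.2 G.2⟩, ?_, ?_⟩
      · exact closure_mono (image_mono fun y hy =>
          ⟨fun ξ hξ => hy.1 ξ (Finset.mem_union_left _ hξ),
            fun ξ hξ ζ hζ => hy.2 ξ (Finset.mem_union_left _ hξ) ζ (Finset.mem_union_left _ hζ)⟩)
      · exact closure_mono (image_mono fun y hy =>
          ⟨fun ξ hξ => hy.1 ξ (Finset.mem_union_right _ hξ),
            fun ξ hξ ζ hζ => hy.2 ξ (Finset.mem_union_right _ hξ) ζ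
              (Finset.mem_union_right _ hζ)⟩))
    (fun F => ((hA F.1 F.2).image j).closure)
    (fun F => isClosed_closure.isCompact) (fun F => isClosed_closure)
  rw [mem_iInter] at hz
  have hzO : ∀ m, z ∈ O m := by
    intro m
    -- two elements of `A` with large first difference
    obtain ⟨ξ, hξ, ζ, hζ, hne, hpat⟩ := hAinf.exists_ne_map_eq_of_mapsTo
      (f := fun ξ (i : Fin m) => x ξ i) (t := (univ : Set (Fin m → Bool)))
      (fun _ _ => mem_univ _) (toFinite _)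
    have hD : ∀ ξ ζ : W, ξ ≠ ζ → (∀ i : Fin m, x ξ i = x ζ i) → m ≤ D x ξ ζ := by
      intro ξ ζ hne hp
      by_contra hcon
      exact D_ne (fun hh => hne (hx hh)) (hp ⟨_, not_le.1 hcon⟩)
    have key : ∀ ξ ∈ A, ∀ ζ ∈ A, ξ < ζ → (∀ i : Fin m, x ξ i = x ζ i) → z ∈ O m := by
      intro ξ hξ ζ hζ hlt hp
      have h1 := hz ⟨{ξ, ζ}, by
        intro v hv
        simp only [Finset.coe_insert, Finset.coe_singleton, mem_insert_iff,
          mem_singleton_iff] at hv
        rcases hv with rfl | rfl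
        · exact hξ
        · exact hζ⟩
      have h2 : closure (j '' WF V b x e {ξ, ζ}) ⊆ closure (j '' b (D x ξ ζ) (e ζ ξ)) :=
        closure_mono (image_mono fun y hy => hy.2 ξ (by simp) ζ (by simp) hlt)
      exact hOa (hD ξ ζ hlt.ne hp) (hbc _ _ (h2 h1))
    rcases lt_or_gt_of_ne hne with hlt | hlt
    · exact key ξ hξ ζ hζ hlt (fun i => congrFun hpat i)
    · exact key ζ hζ ξ hξ hlt (fun i => (congrFun hpat i).symm)
  have hzr : z ∈ closure (range j) := by
    have := hz ⟨∅, by simp⟩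
    exact closure_mono (image_subset_range _ _) this
  obtain ⟨y, rfl⟩ := hr ⟨hzr, mem_iInter.2 hzO⟩
  refine ⟨y, ?_⟩
  rw [mem_iInter]
  intro w
  obtain ⟨a, haA, haw⟩ : ∃ a ∈ A, w ≤ a := by
    by_contra hcon
    push Not at hcon
    exact hAu ((hW w).mono fun a ha => hcon a ha)
  apply hUa haw
  apply hVU a
  have h1 := hz ⟨{a}, by simpa using haA⟩
  rw [hj.toIsInducing.closure_eq_preimage_closure_image]
  exact closure_mono (image_mono fun y hy => hy.1 a (by simp)) h1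

end StepA2

section StepB

variable {X : Type u} [TopologicalSpace X]

/-- one step of the closing off construction -/
def stepSet (Φ : X × X → Set X) (p : Set X → X) (T : Set X) : Set X :=
  insert (p (T ∪ ⋃ q ∈ T ×ˢ T, Φ q)) (T ∪ ⋃ q ∈ T ×ˢ T, Φ q)

/-- the countable sets of the closing off construction -/
noncomputable def SW {W : Type u} [LinearOrder W] [WellFoundedLT W] (Φ : X × X → Set X)
    (p : Set X → X) : W → Set X :=
  (wellFounded_lt (α := W)).fix fun w ih => stepSet Φ p (⋃ v : Iio w, ih v.1 v.2)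

omit [TopologicalSpace X] in
lemma SW_eq {W : Type u} [LinearOrder W] [WellFoundedLT W] (Φ : X × X → Set X)
    (p : Set X → X) (w : W) : SW Φ p w = stepSet Φ p (⋃ v : Iio w, SW Φ p v.1) := by
  rw [SW, WellFounded.fix_eq]

lemma SW_countable {W : Type u} [LinearOrder W] [WellFoundedLT W]
    (hW : ∀ w : W, (Iio w).Countable) {Φ : X × X → Set X} (hΦ : ∀ q, (Φ q).Countable)
    (p : Set X → X) (w : W) : (SW Φ p w).Countable := by
  induction w using WellFoundedLT.induction with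
  | ind w ih =>
    rw [SW_eq, stepSet]
    have : Countable (Iio w) := (hW w).to_subtype
    have hT : (⋃ v : Iio w, SW Φ p v.1).Countable := countable_iUnion fun v => ih v.1 v.2
    exact (hT.union ((hT.prod hT).biUnion fun q _ => hΦ q)).insert _

lemma SW_mono {W : Type u} [LinearOrder W] [WellFoundedLT W] (Φ : X × X → Set X)
    (p : Set X → X) : Monotone (SW (W := W) Φ p) := by
  intro v w hvw
  rcases hvw.eq_or_lt with rfl | hlt
  · rfl
  · rw [SW_eq Φ p w, stepSet]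
    refine Subset.trans ?_ (subset_insert _ _)
    refine Subset.trans ?_ subset_union_left
    exact subset_iUnion (fun v : Iio w => SW Φ p v.1) ⟨v, hlt⟩

lemma SW_closed {W : Type u} [LinearOrder W] [WellFoundedLT W] (Φ : X × X → Set X)
    (p : Set X → X) {v w : W} (hvw : v < w) {a b : X} (ha : a ∈ SW Φ p v) (hb : b ∈ SW Φ p v) :
    Φ (a, b) ⊆ SW Φ p w := by
  rw [SW_eq Φ p w, stepSet]
  refine Subset.trans ?_ (subset_insert _ _)
  refine Subset.trans ?_ subset_union_right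
  intro y hy
  simp only [mem_iUnion]
  exact ⟨(a, b), ⟨mem_iUnion.2 ⟨⟨v, hvw⟩, ha⟩, mem_iUnion.2 ⟨⟨v, hvw⟩, hb⟩⟩, hy⟩

/-- (TAM) implies that every first countable Cech-complete space satisfying the countable chain
condition is separable. Cech-complete means: Tychonoff (completely regular Hausdorff) and a
G-delta subset of its Stone-Cech compactification. -/
theorem result (h : TAM.{u}) (X : Type u) [TopologicalSpace X] [T35Space X]
    [FirstCountableTopology X] (hG : IsGδ (range (stoneCechUnit : X → StoneCech X)))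
    (hX : CCC X) : TopologicalSpace.SeparableSpace X := by
  classical
  by_contra hsep
  have hsep' : ∀ T : Set X, T.Countable → ∃ x, x ∉ closure T := by
    intro T hT
    by_contra hcon
    push Not at hcon
    exact hsep ⟨T, hT, hcon⟩
  have hXne : Nonempty X := ⟨(hsep' ∅ countable_empty).choose⟩
  obtain ⟨W, hWl, hWw, hW1, hW⟩ := exists_W.{u}
  have hWunc : ¬ (univ : Set W).Countable := by
    rw [← Cardinal.le_aleph0_iff_set_countable, mk_univ, hW1, not_le]
    exact Cardinal.aleph0_lt_aleph_one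
  have hbound : ∀ f : ℕ → W, ∃ w, ∀ n, f n ≤ w := by
    intro f
    by_contra hcon
    push Not at hcon
    apply hWunc
    refine (countable_iUnion fun n => hW (f n)).mono fun w _ => ?_
    obtain ⟨n, hn⟩ := hcon w
    exact mem_iUnion.2 ⟨n, hn⟩
  have hsucc : ∀ w : W, ∃ w', w < w' := by
    intro w
    by_contra hcon
    push Not at hcon
    apply hWunc
    refine ((hW w).insert w).mono fun v _ => ?_
    rcases (hcon v).eq_or_lt with h | h
    · exact Or.inl h
    · exact Or.inr h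
  -- countable bases
  have hB : ∀ x : X, ∃ B : ℕ → Set X, (𝓝 x).HasAntitoneBasis B := fun x =>
    (𝓝 x).exists_antitone_basis
  choose B hB using hB
  -- choice function
  set φ : (X × X) → ℕ × ℕ → X := fun q m =>
    if hne : (B q.1 m.1 ∩ B q.2 m.2).Nonempty then hne.some else q.1 with hφ
  set Φ : X × X → Set X := fun q => range (φ q) with hΦdef
  have hΦ : ∀ q, (Φ q).Countable := fun q => countable_range _
  set p : Set X → X := fun T => if hT : ∃ x, x ∉ closure T then hT.choose else Classical.arbitrary X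
    with hp
  have hpT : ∀ T : Set X, T.Countable → p T ∉ closure T := by
    intro T hT
    simp only [hp, dif_pos (hsep' T hT)]
    exact (hsep' T hT).choose_spec
  set S : W → Set X := SW Φ p with hS
  have hSc : ∀ w, (S w).Countable := SW_countable hW hΦ p
  have hSm : Monotone S := SW_mono Φ p
  set Y : Set X := closure (⋃ w, S w) with hY
  -- the point outside
  have hout : ∀ w, ∃ y ∈ Y, y ∉ closure (S w) := by
    intro w
    obtain ⟨w', hw'⟩ := hsucc w
    have : Countable (Iio w') := (hW w').to_subtype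
    set T : Set X := ⋃ v : Iio w', SW Φ p v.1 with hT
    have hTc : T.Countable := countable_iUnion fun v => hSc v.1
    have hTc' : (T ∪ ⋃ q ∈ T ×ˢ T, Φ q).Countable :=
      hTc.union ((hTc.prod hTc).biUnion fun q _ => hΦ q)
    refine ⟨p (T ∪ ⋃ q ∈ T ×ˢ T, Φ q), ?_, ?_⟩
    · apply subset_closure
      refine mem_iUnion.2 ⟨w', ?_⟩
      rw [hS, SW_eq, stepSet]
      exact mem_insert _ _
    · intro hmem
      apply hpT _ hTc'
      refine closure_mono ?_ hmem
      refine Subset.trans ?_ subset_union_left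
      exact subset_iUnion (fun v : Iio w' => SW Φ p v.1) ⟨w, hw'⟩
  -- `Y` is ccc
  have hYccc : CCC Y := by
    intro 𝒰 hU hdisj
    have hch : ∀ U ∈ 𝒰, ∃ x ∈ ⋃ w, S w, ∃ n, ∀ y (hy : y ∈ Y), y ∈ B x n → (⟨y, hy⟩ : Y) ∈ U := by
      intro U hUU
      obtain ⟨hUo, ⟨y, hyY⟩, hyU⟩ := hU U hUU
      obtain ⟨G, hGo, rfl⟩ := hUo
      have hyG : y ∈ G := hyU
      obtain ⟨x, hxG, hxS⟩ := mem_closure_iff.1 hyY G hGo hyG
      obtain ⟨n, -, hn⟩ := (hB x).1.mem_iff.1 (hGo.mem_nhds hxG)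
      exact ⟨x, hxS, n, fun y hy hyB => hn hyB⟩
    choose! c hcS n hn using hch
    have hdisj' : ∀ U ∈ 𝒰, ∀ V ∈ 𝒰, U ≠ V → ¬ (B (c U) (n U) ∩ B (c V) (n V)).Nonempty := by
      intro U hUU V hVV hne hnonempty
      obtain ⟨w1, hw1⟩ := mem_iUnion.1 (hcS U hUU)
      obtain ⟨w2, hw2⟩ := mem_iUnion.1 (hcS V hVV)
      obtain ⟨w3, hw3⟩ := hsucc (max w1 w2)
      have hmem : φ (c U, c V) (n U, n V) ∈ S w3 :=
        SW_closed Φ p hw3 (hSm (le_max_left _ _) hw1) (hSm (le_max_right _ _) hw2)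
          (mem_range_self _)
      have hmem' : φ (c U, c V) (n U, n V) ∈ B (c U) (n U) ∩ B (c V) (n V) := by
        simp only [hφ, dif_pos hnonempty]
        exact hnonempty.some_mem
      have hmY : φ (c U, c V) (n U, n V) ∈ Y := subset_closure (mem_iUnion.2 ⟨w3, hmem⟩)
      exact (Set.disjoint_left.1 (hdisj hUU hVV hne)) (hn U hUU _ hmY hmem'.1)
        (hn V hVV _ hmY hmem'.2)
    have hinj : InjOn (fun U => interior (B (c U) (n U))) 𝒰 := by
      intro U hUU V hVV huv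
      by_contra hne
      apply hdisj' U hUU V hVV hne
      have h1 : c U ∈ interior (B (c U) (n U)) := mem_interior_iff_mem_nhds.2 ((hB _).1.mem_of_mem trivial)
      have h2 : c U ∈ interior (B (c V) (n V)) := by
        have := huv
        simp only at this
        rw [← this]; exact h1
      exact ⟨c U, interior_subset h1, interior_subset h2⟩
    refine countable_of_injective_of_countable_image hinj (hX _ ?_ ?_)
    · rintro _ ⟨U, hUU, rfl⟩
      exact ⟨isOpen_interior, c U, mem_interior_iff_mem_nhds.2 ((hB _).1.mem_of_mem trivial)⟩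
    · rintro _ ⟨U, hUU, rfl⟩ _ ⟨V, hVV, rfl⟩ hne
      rw [Function.onFun, Set.disjoint_left]
      intro z hz1 hz2
      refine hdisj' U hUU V hVV (fun hh => hne (by rw [hh])) ⟨z, interior_subset hz1, interior_subset hz2⟩
  -- embedding
  have hunit : IsEmbedding (stoneCechUnit : X → StoneCech X) :=
    ⟨isInducing_stoneCechUnit, isInducing_stoneCechUnit.injective⟩
  set j : Y → StoneCech X := fun y => stoneCechUnit y.1 with hj
  have hjemb : IsEmbedding j := hunit.comp IsEmbedding.subtypeVal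
  have hjr : range j = stoneCechUnit '' Y := by
    ext z; constructor
    · rintro ⟨y, rfl⟩; exact ⟨y.1, y.2, rfl⟩
    · rintro ⟨y, hy, rfl⟩; exact ⟨⟨y, hy⟩, rfl⟩
  obtain ⟨O, hO, hOeq⟩ := isGδ_iff_eq_iInter_nat.1 hG
  obtain ⟨⟨y, hyY⟩, hy⟩ := stepA h hjemb hYccc (O := fun m => ⋂ i ∈ Finset.range (m + 1), O i)
    (fun m => isOpen_biInter_finset fun i _ => hO i)
    (by
      intro m n hmn
      refine biInter_subset_biInter_left fun i hi => ?_
      simp only [Finset.coe_range, mem_Iio] at hi ⊢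
      omega)
    (by
      intro m
      rw [hjr]
      refine (image_subset_range _ _).trans ?_
      rw [hOeq]
      exact subset_iInter₂ fun i _ => iInter_subset _ i)
    (by
      rintro z ⟨hz1, hz2⟩
      have hz3 : z ∈ range (stoneCechUnit : X → StoneCech X) := by
        rw [hOeq, mem_iInter]
        intro i
        rw [mem_iInter] at hz2
        have := hz2 i
        simp only [mem_iInter, Finset.mem_range] at this
        exact this i (Nat.lt_succ_self i)
      obtain ⟨x, rfl⟩ := hz3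
      rw [hjr] at hz1 ⊢
      refine ⟨x, ?_, rfl⟩
      have : x ∈ closure Y := by
        rw [hunit.toIsInducing.closure_eq_preimage_closure_image]
        exact hz1
      rwa [hY, closure_closure] at this)
    hW1 hW (fun w => {y : Y | (y : X) ∉ closure (S w)})
    (fun w => (isClosed_closure.preimage continuous_subtype_val).isOpen_compl)
    (fun w => by
      obtain ⟨y, hyY, hy⟩ := hout w
      exact ⟨⟨y, hyY⟩, hy⟩)
    (fun v w hvw y hy => fun hh => hy (closure_mono (hSm hvw) hh))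
  rw [mem_iInter] at hy
  -- contradiction
  obtain ⟨s, hs, hlim⟩ := mem_closure_iff_seq_limit.1 hyY
  have : ∀ n, ∃ w, s n ∈ S w := fun n => mem_iUnion.1 (hs n)
  choose f hf using this
  obtain ⟨w, hw⟩ := hbound f
  exact hy w (mem_closure_iff_seq_limit.2 ⟨s, fun n => hSm (hw n) (hf n), hlim⟩)

end StepB

end Pool.Agent.Results.MP_4ebb14_gt.Separable
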